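import Mathlib

namespace Pool.Agent.Results.MP_76b19e_co.Ties

open Finset
open Classical

variable {n : ℕ}

/-- the degree of `v` in `G` -/
noncomputable def deg (G : SimpleGraph (Fin n)) (v : Fin n) : ℕ := G.degree v

/-- the degree sequence of `G`, sorted in nondecreasing order -/
noncomputable def degSeq (G : SimpleGraph (Fin n)) : Fin n → ℕ := deg G ∘ Tuple.sort (deg G)

/-- `G` is degree-majorized by `H`: the sorted degree sequences compare termwise -/
def Majorized (G H : SimpleGraph (Fin n)) : Prop := ∀ i, degSeq G i ≤ degSeq H i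

/-- no `r`-partite graph on the same vertices degree-majorizes `G` -/
def NonMaj (r : ℕ) (G : SimpleGraph (Fin n)) : Prop :=
  ¬ ∃ H : SimpleGraph (Fin n), H.Colorable r ∧ Majorized G H

/-- the numbers of copies of `K_{r+1}` that occur; `m(n,k,r)` is the least element -/
def counts (n k r : ℕ) : Set ℕ :=
  {c | ∃ G : SimpleGraph (Fin n), G.maxDegree = k ∧ NonMaj r G ∧ (G.cliqueFinset (r + 1)).card = c}

lemma maj_iff (G H : SimpleGraph (Fin n)) :
    Majorized G H ↔ ∃ σ : Equiv.Perm (Fin n), ∀ v, deg G v ≤ deg H (σ v) := by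
  constructor
  · intro h
    refine ⟨(Tuple.sort (deg G)).symm.trans (Tuple.sort (deg H)), fun v => ?_⟩
    have := h ((Tuple.sort (deg G)).symm v)
    simpa [degSeq] using this
  · rintro ⟨σ, h⟩ i
    by_contra hlt
    push Not at hlt
    have mG : Monotone (degSeq G) := Tuple.monotone_sort _
    have mH : Monotone (degSeq H) := Tuple.monotone_sort _
    set τ : Equiv.Perm (Fin n) := ((Tuple.sort (deg G)).trans σ).trans
      (Tuple.sort (deg H)).symm with hτ
    have key : ∀ j, degSeq G j ≤ degSeq H (τ j) := fun j => by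
      simpa [degSeq, hτ] using h _
    have : (Ici i).card ≤ (Ioi i).card := by
      refine card_le_card_of_injOn τ (fun j hj => ?_) τ.injective.injOn
      have h1 : i ≤ j := by simpa using hj
      have h2 := mG h1
      have h3 := key j
      simp only [coe_Ioi, Set.mem_Ioi]
      by_contra h4
      have := mH (not_lt.1 h4)
      omega
    rw [Fin.card_Ici, Fin.card_Ioi] at this
    have := i.2
    omega

/-- number of non-neighbours of `v`, itself included -/
noncomputable def a (G : SimpleGraph (Fin n)) (v : Fin n) : ℕ := (univ.filter (fun u => ¬ G.Adj v u)).card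

lemma a_add (G : SimpleGraph (Fin n)) (v : Fin n) : deg G v + a G v = n := by
  have := card_filter_add_card_filter_not (s := (univ : Finset (Fin n))) (fun u => G.Adj v u)
  rw [card_univ, Fintype.card_fin] at this
  rw [deg, a, ← G.card_neighborFinset_eq_degree, G.neighborFinset_eq_filter]
  exact this

lemma nonmaj_iff (r : ℕ) (G : SimpleGraph (Fin n)) :
    NonMaj r G ↔ ¬ ∃ c : Fin n → Fin r, ∀ v, (univ.filter (fun u => c u = c v)).card ≤ a G v := by
  refine not_congr ⟨?_, ?_⟩
  · rintro ⟨H, ⟨C⟩, h⟩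
    obtain ⟨σ, hσ⟩ := (maj_iff G H).1 h
    refine ⟨fun v => C (σ v), fun v => ?_⟩
    have h1 : (univ.filter (fun u => C (σ u) = C (σ v))).card ≤ a H (σ v) := by
      refine card_le_card_of_injOn σ (fun u hu => ?_) σ.injective.injOn
      have : C (σ u) = C (σ v) := by simpa using hu
      simp only [coe_filter, mem_univ, true_and, Set.mem_ofPred_eq]
      exact fun hadj => C.valid hadj this.symm
    have := a_add G v
    have := a_add H (σ v)
    have := hσ v
    show (univ.filter (fun u => C (σ u) = C (σ v))).card ≤ a G v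
    omega
  · rintro ⟨c, hc⟩
    let H : SimpleGraph (Fin n) := ⟨fun u v => c u ≠ c v, ⟨fun _ _ h => h.symm⟩, ⟨fun _ h => h rfl⟩⟩
    refine ⟨H, ⟨SimpleGraph.Coloring.mk c (fun h => h)⟩, (maj_iff G H).2 ⟨1, fun v => ?_⟩⟩
    have h1 : a H v = (univ.filter (fun u => c u = c v)).card := by
      rw [a]; congr 1; ext u; simp [H, eq_comm]
    have := a_add G v
    have := a_add H v
    have := hc v
    simp only [Equiv.Perm.coe_one, id]
    omega

/-- the counting form of non-majorizability -/
def Hyp (g : Fin n → ℕ) (U : Finset (Fin n)) (r : ℕ) (q : ℕ → ℕ) : Prop :=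
  (∀ i < r, ∑ j ∈ range i, q j < (U.filter (fun v => g v ≤ q i)).card) ∧ ∑ j ∈ range r, q j < U.card

lemma hyp_shift {g : Fin n → ℕ} {U B : Finset (Fin n)} {r : ℕ} {q : ℕ → ℕ} (h : Hyp g U (r + 1) q)
    (hB : B.card ≤ q 0) : Hyp g (U \ B) r (fun j => q (j + 1)) := by
  refine ⟨fun i hi => ?_, ?_⟩
  · have h1 := h.1 (i + 1) (by omega)
    rw [sum_range_succ'] at h1
    have h2 : (U.filter (fun v => g v ≤ q (i + 1))) \ B = (U \ B).filter (fun v => g v ≤ q (i + 1)) := by
      ext v; simp; tauto
    have := le_card_sdiff B (U.filter (fun v => g v ≤ q (i + 1)))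
    rw [h2] at this
    beta_reduce
    omega
  · have h1 := h.2
    rw [sum_range_succ'] at h1
    have := le_card_sdiff B U
    beta_reduce
    omega

lemma hyp_nocol {α : Type} [DecidableEq α] (g : Fin n → ℕ) (c : Fin n → α) (r : ℕ) : ∀ (q : ℕ → ℕ) (U : Finset (Fin n))
    (K : Finset α), Hyp g U r q → K.card ≤ r → (∀ v ∈ U, c v ∈ K) →
    (∀ v ∈ U, (univ.filter (fun u => c u = c v)).card ≤ g v) → False := by
  induction r with
  | zero =>
    intro q U K h hK hc _
    obtain ⟨v, hv⟩ := card_pos.1 (lt_of_le_of_lt (Nat.zero_le _) h.2)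
    have := card_pos.2 ⟨_, hc v hv⟩
    omega
  | succ r ih =>
    intro q U K h hK hc hg
    obtain ⟨v, hv⟩ := card_pos.1 (lt_of_le_of_lt (Nat.zero_le _) (h.1 0 (by omega)))
    rw [mem_filter] at hv
    refine ih _ _ (K.erase (c v)) (hyp_shift h ((hg v hv.1).trans hv.2)) ?_ ?_ ?_
    · rw [card_erase_of_mem (hc v hv.1)]; omega
    · intro u hu
      simp only [mem_sdiff, mem_filter, mem_univ, true_and] at hu
      exact mem_erase.2 ⟨hu.2, hc u hu.1⟩
    · exact fun u hu => hg u (mem_sdiff.1 hu).1

lemma lowest (g : Fin n → ℕ) (U : Finset (Fin n)) (p : ℕ) (hp : p ≤ U.card) :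
    ∃ B ⊆ U, B.card = p ∧ ∀ x ∈ B, ∀ y ∈ U \ B, g x ≤ g y := by
  induction p with
  | zero => exact ⟨∅, by simp⟩
  | succ p ih =>
    obtain ⟨B, h1, h2, h3⟩ := ih (by omega)
    have : (U \ B).Nonempty := card_pos.1 (by have := le_card_sdiff B U; omega)
    obtain ⟨x, hx, hm⟩ := exists_min_image _ g this
    refine ⟨insert x B, insert_subset (mem_sdiff.1 hx).1 h1, ?_, fun z hz y hy => ?_⟩
    · rw [card_insert_of_notMem (mem_sdiff.1 hx).2, h2]
    · have hy' : y ∈ U \ B := by grind
      rcases mem_insert.1 hz with rfl | hz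
      · exact hm y hy'
      · exact h3 z hz y hy'

lemma hyp_of_nocol (g : Fin n → ℕ) (r : ℕ) : ∀ U : Finset (Fin n),
    (¬ ∃ c : Fin n → ℕ, ∀ v ∈ U, c v < r ∧ (U.filter (fun u => c u = c v)).card ≤ g v) →
    ∃ q : ℕ → ℕ, Hyp g U r q ∧ ∀ i, i + 1 < r → q i ≤ q (i + 1) := by
  induction r with
  | zero =>
    intro U h
    refine ⟨fun _ => 0, ⟨by simp, ?_⟩, by simp⟩
    rw [sum_range_zero, card_pos, nonempty_iff_ne_empty]
    rintro rfl
    exact h ⟨fun _ => 0, by simp⟩
  | succ r ih =>
    intro U h
    have hU : U.Nonempty := by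
      rw [nonempty_iff_ne_empty]; rintro rfl; exact h ⟨fun _ => 0, by simp⟩
    obtain ⟨x, hx, hm⟩ := exists_min_image _ g hU
    have hp : g x ≤ U.card := by
      by_contra hlt
      exact h ⟨fun _ => 0, fun v hv => ⟨Nat.succ_pos _, by have := hm v hv; simp; omega⟩⟩
    obtain ⟨B, h1, h2, h3⟩ := lowest g U _ hp
    obtain ⟨q, ⟨hq1, hq2⟩, hq3⟩ := ih (U \ B) (by
      rintro ⟨c, hc⟩
      refine h ⟨fun v => if v ∈ B then r else c v, fun v hv => ?_⟩
      by_cases hvB : v ∈ B
      · refine ⟨by simp [hvB], ?_⟩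
        refine (card_le_card (t := B) fun u hu => ?_).trans (h2 ▸ hm v hv)
        by_contra huB
        simp only [hvB, huB, if_true, mem_filter] at hu
        have := (hc u (mem_sdiff.2 ⟨hu.1, huB⟩)).1
        simp at hu
        omega
      · have := hc v (mem_sdiff.2 ⟨hv, hvB⟩)
        refine ⟨by simp [hvB]; omega, (card_le_card fun u hu => ?_).trans this.2⟩
        by_cases huB : u ∈ B
        · simp [hvB, huB] at hu; omega
        · simpa [hvB, huB] using hu)
    have hw : ∀ i < r, ∃ y ∈ U \ B, g y ≤ q i := fun i hi => by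
      obtain ⟨y, hy⟩ := card_pos.1 (lt_of_le_of_lt (Nat.zero_le _) (hq1 i hi))
      exact ⟨y, mem_filter.1 hy⟩
    refine ⟨fun j => if j = 0 then g x else q (j - 1), ⟨fun i hi => ?_, ?_⟩, fun i hi => ?_⟩
    · rcases i with _ | i
      · simp only [range_zero, sum_empty, if_true]
        exact card_pos.2 ⟨x, by simp [hx]⟩
      · rw [sum_range_succ']
        obtain ⟨y, hy, hy2⟩ := hw i (by omega)
        have h4 := hq1 i (by omega)
        have h5 : ((U \ B).filter (fun v => g v ≤ q i) ∪ B).card ≤ (U.filter (fun v => g v ≤ q i)).card := by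
          refine card_le_card fun v hv => ?_
          rcases mem_union.1 hv with hv | hv
          · grind
          · exact mem_filter.2 ⟨h1 hv, (h3 v hv y hy).trans hy2⟩
        rw [card_union_of_disjoint (by rw [disjoint_left]; grind)] at h5
        simp
        omega
    · rw [sum_range_succ']
      have := card_sdiff_add_card_eq_card h1
      simp
      omega
    · rcases i with _ | i
      · obtain ⟨y, hy, hy2⟩ := hw 0 (by omega)
        simpa using (hm y (mem_sdiff.1 hy).1).trans hy2
      · simpa using hq3 i (by omega)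

lemma nonmaj_hyp {r : ℕ} {G : SimpleGraph (Fin n)} (h : NonMaj r G) :
    ∃ q : ℕ → ℕ, Hyp (a G) univ r q ∧ ∀ i, i + 1 < r → q i ≤ q (i + 1) := by
  refine hyp_of_nocol _ r univ ?_
  rintro ⟨c, hc⟩
  refine (nonmaj_iff r G).1 h ⟨fun v => ⟨c v, (hc v (mem_univ _)).1⟩, fun v => ?_⟩
  simpa [Fin.ext_iff] using (hc v (mem_univ _)).2

lemma hyp_nonmaj {r : ℕ} {G : SimpleGraph (Fin n)} {q : ℕ → ℕ} (h : Hyp (a G) univ r q) : NonMaj r G := by
  rw [nonmaj_iff]
  rintro ⟨c, hc⟩
  exact hyp_nocol _ c r q univ univ h (by simp) (by simp) (fun v _ => hc v)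


variable {G : SimpleGraph (Fin n)}

/-- number of vertices of `S` not adjacent to `u` -/
noncomputable def miss (G : SimpleGraph (Fin n)) (S : Finset (Fin n)) (u : Fin n) : ℕ :=
  (S.filter (fun s => ¬ G.Adj s u)).card

lemma sum_miss (S : Finset (Fin n)) : ∑ u, miss G S u = ∑ s ∈ S, a G s := by
  simp only [miss, a, card_filter]
  exact sum_comm

lemma miss_zero {S : Finset (Fin n)} {u : Fin n} : miss G S u = 0 ↔ ∀ s ∈ S, G.Adj s u := by
  simp [miss, filter_eq_empty_iff]

lemma overlap (S : Finset (Fin n)) : n + (univ.filter (fun u => 2 ≤ miss G S u)).card ≤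
    (univ.filter (fun u => miss G S u = 0)).card + ∑ s ∈ S, a G s := by
  rw [← sum_miss, card_filter, card_filter, ← sum_add_distrib]
  have : n = ∑ _u : Fin n, 1 := by simp
  nth_rewrite 1 [this]
  rw [← sum_add_distrib]
  exact sum_le_sum fun u _ => by split_ifs <;> omega

lemma blocked (S : Finset (Fin n)) : (univ.filter (fun u => miss G S u ≠ 0)).card ≤ ∑ s ∈ S, a G s := by
  rw [← sum_miss, card_filter]
  exact sum_le_sum fun u _ => by split_ifs <;> omega

lemma pick (S W : Finset (Fin n)) (h : ∑ s ∈ S, a G s < W.card) : ∃ w ∈ W, ∀ s ∈ S, G.Adj s w := by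
  by_contra hc
  push Not at hc
  have : W ⊆ univ.filter (fun u => miss G S u ≠ 0) := fun w hw => by
    obtain ⟨s, hs, h⟩ := hc w hw
    simp only [mem_filter, mem_univ, true_and, ne_eq, miss_zero]
    exact fun h' => h (h' s hs)
  have := (card_le_card this).trans (blocked S)
  omega

lemma clique_ins {S : Finset (Fin n)} {k : ℕ} {w : Fin n} (hS : G.IsNClique k S)
    (h : ∀ s ∈ S, G.Adj s w) : G.IsNClique (k + 1) (insert w S) ∧ w ∉ S :=
  ⟨hS.insert fun s hs => (h s hs).symm, fun hw => G.irrefl (h w hw)⟩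

lemma ext {r : ℕ} {q : ℕ → ℕ} (hH : Hyp (a G) univ r q) (θ : ℕ) (d : ℕ) : ∀ (j : ℕ) (S : Finset (Fin n)),
    j + d ≤ r → G.IsNClique j S → ∑ s ∈ S, a G s ≤ ∑ i ∈ range j, q i → (∀ i, j ≤ i → i < r → θ ≤ q i) →
    ∃ T, Disjoint S T ∧ G.IsNClique (j + d) (S ∪ T) ∧
      ∑ s ∈ T, max (a G s) θ + ∑ i ∈ range j, q i ≤ ∑ i ∈ range (j + d), q i := by
  induction d with
  | zero => intro j S _ hS _ _; exact ⟨∅, by simp, by simpa using hS, by simp⟩
  | succ d ih =>
    intro j S hj hS hA hθ
    obtain ⟨T, h1, h2, h3⟩ := ih j S (by omega) hS hA hθ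
    have h4 : ∑ s ∈ T, a G s ≤ ∑ s ∈ T, max (a G s) θ := sum_le_sum fun s _ => le_max_left _ _
    obtain ⟨w, hw, hw2⟩ := pick (G := G) (S ∪ T) _ (lt_of_le_of_lt (by rw [sum_union h1]; omega) (hH.1 (j + d) (by omega)))
    obtain ⟨h5, h6⟩ := clique_ins h2 hw2
    have h7 : w ∉ T := fun h => h6 (mem_union_right _ h)
    refine ⟨insert w T, ?_, ?_, ?_⟩
    · rw [disjoint_insert_right]; exact ⟨fun h => h6 (mem_union_left _ h), h1⟩
    · rw [union_insert]; exact h5
    · rw [sum_insert h7, ← add_assoc j, sum_range_succ]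
      have := (mem_filter.1 hw).2
      have := hθ (j + d) (by omega) (by omega)
      omega

lemma swap {r κ : ℕ} {S W : Finset (Fin n)} (hS : G.IsNClique r S)
    (hW : ∀ w ∈ W, w ∉ S → ∀ s ∈ S, ¬ G.Adj s w → ∑ x ∈ S, a G x + a G w < n + a G s)
    (hκ : ∀ I, G.IsNClique (r + 1) I → (I \ S).card ≤ 2 → ((I \ S) ∩ W).card ≤ κ) :
    κ * (univ.filter (fun u => miss G S u = 0)).card +
      ((W \ S).filter (fun u => miss G S u = 1)).card ≤ κ * (G.cliqueFinset (r + 1)).card := by
  set C := G.cliqueFinset (r + 1)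
  have h1 : (univ.filter (fun u => miss G S u = 0)).card ≤ (C.filter (fun I => S ⊆ I)).card := by
    refine card_le_card_of_injOn (fun u => insert u S) (fun u hu => ?_) (fun u hu v hv h => ?_)
    · have hu' : miss G S u = 0 := by simpa using hu
      simp only [coe_filter, Set.mem_ofPred_eq, C, SimpleGraph.mem_cliqueFinset_iff]
      exact ⟨(clique_ins hS (miss_zero.1 hu')).1, subset_insert _ _⟩
    · have hu' : miss G S u = 0 := by simpa using hu
      have := (clique_ins hS (miss_zero.1 hu')).2
      have h2 : u ∈ insert v S := by simp only at h; rw [← h]; exact mem_insert_self _ _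
      grind
  set C' := (C.filter (fun I => ¬ S ⊆ I)).filter (fun I => (I \ S).card ≤ 2)
  have h2 : (W \ S).filter (fun u => miss G S u = 1) ⊆ C'.biUnion (fun I => (I \ S) ∩ W) := by
    intro w hw
    simp only [mem_filter, mem_sdiff] at hw
    obtain ⟨⟨hwW, hwS⟩, hm⟩ := hw
    obtain ⟨s, hs⟩ := card_eq_one.1 hm
    have hs1 : s ∈ S ∧ ¬ G.Adj s w := by have := mem_singleton_self s; rw [← hs] at this; simpa using this
    have hs2 : ∀ x ∈ S.erase s, G.Adj x w := fun x hx => by
      by_contra hc
      have : x ∈ S.filter (fun s => ¬ G.Adj s w) := mem_filter.2 ⟨mem_of_mem_erase hx, hc⟩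
      rw [hs] at this
      exact ne_of_mem_erase hx (mem_singleton.1 this)
    have hr : r - 1 + 1 = r := by have := card_pos.2 ⟨s, hs1.1⟩; have := hS.card_eq; omega
    have hc0 : G.IsNClique (r - 1) (S.erase s) :=
      ⟨hS.isClique.subset (coe_subset.2 (erase_subset _ _)), by rw [card_erase_of_mem hs1.1, hS.card_eq]⟩
    obtain ⟨hc1, hn1⟩ := clique_ins hc0 hs2
    have hsum := add_sum_erase S (a G) hs1.1
    obtain ⟨e, -, he⟩ := pick (G := G) (insert w (S.erase s)) univ (by
      have := hW w hwW hwS s hs1.1 hs1.2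
      rw [sum_insert hn1, card_univ, Fintype.card_fin]; omega)
    obtain ⟨hc2, -⟩ := clique_ins hc1 he
    rw [hr] at hc2
    refine mem_biUnion.2 ⟨insert e (insert w (S.erase s)), ?_, by simp [hwS, hwW]⟩
    simp only [C', C, mem_filter, SimpleGraph.mem_cliqueFinset_iff]
    refine ⟨⟨hc2, fun hsub => ?_⟩, (card_le_card (t := {e, w}) (by intro x; simp; grind)).trans card_le_two⟩
    have t1 := hsub hs1.1
    have t2 := he w (mem_insert_self _ _)
    simp only [mem_insert, mem_erase] at t1
    rcases t1 with rfl | rfl | h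
    · exact hs1.2 t2.symm
    · exact hwS hs1.1
    · exact h.1 rfl
  have h3 := (card_le_card h2).trans (card_biUnion_le_card_mul _ _ κ fun I hI => by
    simp only [C', C, mem_filter, SimpleGraph.mem_cliqueFinset_iff] at hI
    exact hκ I hI.1.1 hI.2)
  have h4 : C'.card ≤ (C.filter (fun I => ¬ S ⊆ I)).card := card_filter_le _ _
  have h5 := card_filter_add_card_filter_not (s := C) (fun I => S ⊆ I)
  rw [← h5]
  nlinarith [Nat.mul_le_mul_left κ h1, Nat.mul_le_mul_left κ h4]

lemma split3 (S W : Finset (Fin n)) : W.card ≤ (W ∩ S).card + ((W \ S).filter (fun u => miss G S u = 0)).card +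
    ((W \ S).filter (fun u => miss G S u = 1)).card + (univ.filter (fun u => 2 ≤ miss G S u)).card := by
  refine le_trans (card_le_card (t := W ∩ S ∪ (W \ S).filter (fun u => miss G S u = 0) ∪
    (W \ S).filter (fun u => miss G S u = 1) ∪ univ.filter (fun u => 2 ≤ miss G S u)) fun w hw => ?_) ?_
  · simp only [mem_union, mem_inter, mem_filter, mem_sdiff, mem_univ, hw, true_and]
    by_cases w ∈ S <;> simp [*]; omega
  · refine (card_union_le _ _).trans (Nat.add_le_add_right ((card_union_le _ _).trans
      (Nat.add_le_add_right (card_union_le _ _) _)) _)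

lemma pairs {r : ℕ} {I X U : Finset (Fin n)} (hI : G.IsNClique (r + 1) I) (hX : X ⊆ I) (hX2 : 2 ≤ X.card)
    (hU : ∀ w ∈ U, w ∉ I ∧ ∀ s ∈ I, s ∉ X → G.Adj s w) :
    2 * U.card + X.card + 1 ≤ (G.cliqueFinset (r + 1)).card + ∑ s ∈ X, a G s := by
  set P := (U ×ˢ X).filter (fun p => ∀ x ∈ X, x ≠ p.2 → G.Adj x p.1)
  have h1 : P.card ≤ ((G.cliqueFinset (r + 1)).erase I).card := by
    refine card_le_card_of_injOn (fun p => insert p.1 (I.erase p.2)) (fun p hp => ?_) (fun p hp p' hp' h => ?_)
    · simp only [P, coe_filter, mem_product, Set.mem_ofPred_eq] at hp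
      have hc0 : G.IsNClique r (I.erase p.2) :=
        ⟨hI.isClique.subset (coe_subset.2 (erase_subset _ _)), by rw [card_erase_of_mem (hX hp.1.2), hI.card_eq]; rfl⟩
      have := (clique_ins hc0 (w := p.1) (fun s hs => by
        by_cases h : s ∈ X
        · exact hp.2 s h (ne_of_mem_erase hs)
        · exact (hU _ hp.1.1).2 s (mem_of_mem_erase hs) h)).1
      simp only [coe_erase, Set.mem_sdiff, mem_coe, SimpleGraph.mem_cliqueFinset_iff, Set.mem_singleton_iff]
      exact ⟨this, fun h => (hU _ hp.1.1).1 (h ▸ mem_insert_self _ _)⟩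
    · simp only [P, coe_filter, mem_product, Set.mem_ofPred_eq] at hp hp'
      have a1 := (hU _ hp.1.1).1
      have a2 := (hU _ hp'.1.1).1
      have a3 := hX hp.1.2
      have a4 := hX hp'.1.2
      have b1 := (Finset.ext_iff.1 h) p.1
      have b2 := (Finset.ext_iff.1 h) p.2
      simp only [mem_insert, mem_erase] at b1 b2
      refine Prod.ext ?_ ?_ <;> grind
  rw [card_erase_of_mem (by simpa using hI)] at h1
  have h0 : 0 < (G.cliqueFinset (r + 1)).card := card_pos.2 ⟨I, by simpa using hI⟩
  have h2 : 2 * U.card ≤ P.card + ∑ w ∈ U, miss G X w := by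
    rw [card_filter, sum_product, ← sum_add_distrib, mul_comm, ← smul_eq_mul, ← sum_const]
    refine sum_le_sum fun w _ => ?_
    rw [← card_filter]
    by_cases h0 : miss G X w = 0
    · have := miss_zero.1 h0
      rw [filter_true_of_mem fun s _ x hx _ => this x hx]; omega
    by_cases h1 : miss G X w = 1
    · obtain ⟨s, hs⟩ := card_eq_one.1 h1
      have hs1 : s ∈ X := by have := mem_singleton_self s; rw [← hs] at this; exact (mem_filter.1 this).1
      have : 0 < (X.filter (fun s => ∀ x ∈ X, x ≠ s → G.Adj x w)).card := card_pos.2 ⟨s, mem_filter.2 ⟨hs1, fun x hx hne => by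
        by_contra hc
        have : x ∈ X.filter (fun s => ¬ G.Adj s w) := mem_filter.2 ⟨hx, hc⟩
        rw [hs] at this
        exact hne (mem_singleton.1 this)⟩⟩
      simp only at this ⊢
      omega
    omega
  have h3 : ∑ w ∈ U, miss G X w + X.card ≤ ∑ s ∈ X, a G s := by
    have hd : Disjoint U X := disjoint_left.2 fun w hw hx => (hU w hw).1 (hX hx)
    have : X.card ≤ ∑ w ∈ X, miss G X w := by
      rw [card_eq_sum_ones]
      exact sum_le_sum fun w hw => card_pos.2 ⟨w, mem_filter.2 ⟨hw, G.irrefl⟩⟩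
    rw [← sum_miss]
    have h4 := sum_le_sum_of_subset (f := miss G X) (subset_univ (U ∪ X))
    rw [sum_union hd] at h4
    omega
  omega


lemma cl0 : G.IsNClique 0 (∅ : Finset (Fin n)) := SimpleGraph.isNClique_empty.2 rfl

lemma lower_one {r : ℕ} {q : ℕ → ℕ} (hH : Hyp (a G) univ r q) : 1 ≤ (G.cliqueFinset (r + 1)).card := by
  obtain ⟨T, -, h2, h3⟩ := ext hH 0 r 0 ∅ (by omega) cl0 (by simp) (by simp)
  simp only [empty_union, zero_add, range_zero, sum_empty, add_zero, Nat.zero_le, max_eq_left] at h2 h3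
  obtain ⟨e, -, he⟩ := pick (G := G) T univ (lt_of_le_of_lt h3 hH.2)
  exact card_pos.2 ⟨_, SimpleGraph.mem_cliqueFinset_iff.2 (clique_ins h2 he).1⟩

/-- a last tie `q t = q (t+1)` forces `q t` cliques -/
lemma lower_tie {r t : ℕ} {q : ℕ → ℕ} (hH : Hyp (a G) univ r q) (ht : t + 1 < r) (hq : q (t + 1) = q t)
    (hs : ∀ i, t < i → i + 1 < r → q i < q (i + 1)) : q t ≤ (G.cliqueFinset (r + 1)).card := by
  have hn : ∑ j ∈ range r, q j < n := by simpa using hH.2
  obtain ⟨S₀, -, c0, A0⟩ := ext hH 0 t 0 ∅ (by omega) cl0 (by simp) (by simp)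
  simp only [empty_union, zero_add, range_zero, sum_empty, add_zero, Nat.zero_le, max_eq_left] at c0 A0
  have hb := blocked (G := G) S₀
  have hfree : ∀ W : Finset (Fin n), W.card ≤ (W.filter (fun u => miss G S₀ u = 0)).card + ∑ j ∈ range t, q j := by
    intro W
    have h1 := card_filter_add_card_filter_not (s := W) (fun u => miss G S₀ u = 0)
    have h2 : (W.filter (fun u => ¬ miss G S₀ u = 0)).card ≤ (univ.filter (fun u => miss G S₀ u ≠ 0)).card :=
      card_le_card (filter_subset_filter _ (subset_univ _))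
    omega
  have s1 := sum_range_succ q t
  have s2 : ∑ j ∈ range (t + 2), q j = _ := sum_range_succ q (t + 1)
  obtain ⟨H, hH1, hH2⟩ := exists_subset_card_eq (s := (univ.filter (fun v => a G v ≤ q (t + 1))).filter
    (fun u => miss G S₀ u = 0)) (n := q t + 1) (by have := hfree (univ.filter (fun v => a G v ≤ q (t + 1))); have := hH.1 (t + 1) ht; omega)
  have hHa : ∀ x ∈ H, a G x ≤ q t ∧ ∀ s ∈ S₀, G.Adj s x := fun x hx => by
    have := hH1 hx
    simp only [mem_filter, mem_univ, true_and, miss_zero] at this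
    exact ⟨hq ▸ this.1, this.2⟩
  have two : ∀ x ∈ H, ∀ y ∈ H, G.Adj x y → G.IsNClique (t + 2) (insert y (insert x S₀)) ∧
      ∑ s ∈ insert y (insert x S₀), a G s = a G y + a G x + ∑ s ∈ S₀, a G s := fun x hx y hy hxy => by
    obtain ⟨c1, n1⟩ := clique_ins c0 (hHa x hx).2
    obtain ⟨c2, n2⟩ := clique_ins c1 (w := y) (by
      intro s hs; rcases mem_insert.1 hs with rfl | hs; exact hxy; exact (hHa y hy).2 s hs)
    exact ⟨c2, by rw [sum_insert n2, sum_insert n1, add_assoc]⟩
  by_cases tri : ∃ x ∈ H, ∃ y ∈ H, ∃ z ∈ H, G.Adj x y ∧ G.Adj x z ∧ G.Adj y z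
  · obtain ⟨x, hx, y, hy, z, hz, hxy, hxz, hyz⟩ := tri
    obtain ⟨c2, A2⟩ := two x hx y hy hxy
    obtain ⟨c3, n3⟩ := clique_ins c2 (w := z) (by
      intro s hs; simp only [mem_insert] at hs; rcases hs with rfl | rfl | hs
      exacts [hyz, hxz, (hHa z hz).2 s hs])
    have ax := (hHa x hx).1
    have ay := (hHa y hy).1
    have az := (hHa z hz).1
    have nxy := hxy.ne
    have nxz := hxz.ne
    have nyz := hyz.ne
    have hX : ({x, y, z} : Finset (Fin n)).card = 3 := card_eq_three.2 ⟨x, y, z, nxy, nxz, nyz, rfl⟩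
    rcases Nat.lt_or_ge (t + 2) r with hr | hr
    · have s3 := sum_range_succ q (t + 2)
      have q2 : q (t + 1) < q (t + 2) := hs (t + 1) (by omega) hr
      have mono : ∀ i, t + 2 + 1 ≤ i → i < r → q (t + 2) + 1 ≤ q i := by
        intro i h1 h2
        induction i, h1 using Nat.le_induction with
        | base => exact hs (t + 2) (by omega) h2
        | succ i h1 ih => have := hs i (by omega) h2; have := ih (by omega); omega
      have A3 := sum_insert (f := a G) n3
      obtain ⟨T, d1, c4, A4⟩ := ext hH (q (t + 2) + 1) (r - (t + 2 + 1)) (t + 2 + 1) _ (by omega) c3 (by omega) mono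
      rw [show t + 2 + 1 + (r - (t + 2 + 1)) = r by omega] at c4 A4
      set S := insert z (insert y (insert x S₀)) ∪ T with hS
      set W := (univ.filter (fun v => a G v ≤ q (t + 2))).filter (fun u => miss G S₀ u = 0) with hW
      have AS : ∑ s ∈ S, a G s = _ := sum_union d1
      have hT1 : ∑ s ∈ T, a G s + (W ∩ T).card ≤ ∑ s ∈ T, max (a G s) (q (t + 2) + 1) := by
        rw [inter_comm, ← filter_mem_eq_inter, card_filter, ← sum_add_distrib]
        refine sum_le_sum fun s _ => ?_
        split_ifs with h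
        · have : a G s ≤ q (t + 2) := by simp only [hW, mem_filter] at h; exact h.1.2
          omega
        · omega
      have hsw := swap (κ := 2) (W := W) c4 (fun w hw _ s hs hsw => by
        simp only [hW, mem_filter, mem_univ, true_and, miss_zero] at hw
        rcases mem_union.1 hs with h | h
        · simp only [mem_insert] at h
          rcases h with rfl | rfl | rfl | h
          · omega
          · omega
          · omega
          · exact absurd (hw.2 s h) hsw
        · have e1 := add_sum_erase T (a G) h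
          have e2 := add_sum_erase T (fun s => max (a G s) (q (t + 2) + 1)) h
          have e3 : ∑ s ∈ T.erase s, a G s ≤ ∑ s ∈ T.erase s, max (a G s) (q (t + 2) + 1) :=
            sum_le_sum fun s _ => le_max_left _ _
          omega) (fun I _ h => (card_le_card inter_subset_left).trans h)
      have h1 := overlap (G := G) S
      have h2 := split3 (G := G) S W
      have h3 := hfree (univ.filter (fun v => a G v ≤ q (t + 2)))
      have h4 := hH.1 (t + 2) hr
      have h5 : (W ∩ S).card ≤ 3 + (W ∩ T).card := by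
        rw [← hX]
        refine le_trans (card_le_card fun v hv => ?_) (card_union_le _ _)
        simp only [hW, hS, mem_inter, mem_filter, mem_univ, true_and, miss_zero, mem_union, mem_insert, mem_singleton] at hv ⊢
        have := fun h => G.irrefl (hv.1.2 v h)
        tauto
      have h6 : ((W \ S).filter (fun u => miss G S u = 0)).card ≤ (univ.filter (fun u => miss G S u = 0)).card :=
        card_le_card (filter_subset_filter _ (subset_univ _))
      rw [← hW] at h3
      omega
    · obtain rfl : r = t + 2 := by omega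
      have := pairs (X := {x, y, z}) (U := (univ.filter (fun u => miss G S₀ u = 0)) \ {x, y, z}) c3
        (by intro v; simp only [mem_insert, mem_singleton]; tauto) (by omega) (fun w hw => by
          simp only [mem_sdiff, mem_filter, mem_univ, true_and, miss_zero, mem_insert, mem_singleton] at hw ⊢
          have := fun h => G.irrefl (hw.1 w h)
          exact ⟨by tauto, fun s hs hn => hw.1 s (by tauto)⟩)
      rw [sum_insert (by simp [nxy, nxz]), sum_pair nyz] at this
      have h3 := hfree univ
      have h4 := le_card_sdiff ({x, y, z} : Finset (Fin n)) (univ.filter (fun u => miss G S₀ u = 0))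
      rw [card_univ, Fintype.card_fin] at h3
      omega
  · obtain ⟨x, hx⟩ := card_pos.1 (show 0 < H.card by omega)
    have ax := (hHa x hx).1
    obtain ⟨y, hy, hxy⟩ := pick (G := G) {x} H (by rw [sum_singleton]; omega)
    have hxy : G.Adj x y := hxy x (mem_singleton_self _)
    have ay := (hHa y hy).1
    obtain ⟨c2, A2⟩ := two x hx y hy hxy
    obtain ⟨T, d1, c4, A4⟩ := ext hH 0 (r - (t + 2)) (t + 2) _ (by omega) c2 (by omega) (by simp)
    rw [show t + 2 + (r - (t + 2)) = r by omega] at c4 A4
    simp only [Nat.zero_le, max_eq_left] at A4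
    set S := insert y (insert x S₀) ∪ T with hS
    have AS : ∑ s ∈ S, a G s = _ := sum_union d1
    have xS : x ∈ S := by simp [hS]
    have yS : y ∈ S := by simp [hS]
    have nb : ∀ w ∈ H, ¬ G.Adj x w ∨ ¬ G.Adj y w := fun w hw => by
      by_contra hc
      push Not at hc
      exact tri ⟨x, hx, y, hy, w, hw, hxy, hc.1, hc.2⟩
    have hsw := swap (κ := 1) (W := (H \ S).filter (fun u => miss G S u = 1)) c4 (fun w hw _ s hs hsw => by
      simp only [mem_filter, mem_sdiff] at hw
      have aw := (hHa w hw.1.1).1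
      obtain ⟨s', hs'⟩ := card_eq_one.1 hw.2
      have key : ∀ u ∈ S, ¬ G.Adj u w → u = s' := fun u hu h => by
        rw [← mem_singleton, ← hs']; exact mem_filter.2 ⟨hu, h⟩
      have e := key s hs hsw
      rcases nb w hw.1.1 with h | h
      · have := key x xS h
        obtain rfl : s = x := by rw [e, this]
        omega
      · have := key y yS h
        obtain rfl : s = y := by rw [e, this]
        omega) (fun I hI h => by
      rw [card_le_one]
      intro u hu v hv
      by_contra huv
      simp only [mem_inter, mem_filter, mem_sdiff] at hu hv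
      have e1 : I \ S = {u, v} := (eq_of_subset_of_card_le (by intro w; simp; grind) (by rw [card_pair huv]; exact h)).symm
      have e2 := card_sdiff_add_card_inter I S
      have e3 := card_sdiff_add_card_inter S I
      rw [e1, card_pair huv, hI.card_eq] at e2
      rw [c4.card_eq, inter_comm] at e3
      have e4 : x ∈ I ∨ y ∈ I := by
        by_contra hc
        push Not at hc
        have : ({x, y} : Finset (Fin n)) ⊆ S \ I := by intro w; simp; grind
        have := card_le_card this
        rw [card_pair hxy.ne] at this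
        omega
      have adj : ∀ p ∈ I, ∀ p' ∈ I, p ≠ p' → G.Adj p p' := fun p hp p' hp' h => hI.isClique hp hp' h
      rcases e4 with h | h
      · exact tri ⟨x, hx, u, hu.2.1.1, v, hv.2.1.1, adj _ h _ hu.1.1 (by grind), adj _ h _ hv.1.1 (by grind),
          adj _ hu.1.1 _ hv.1.1 huv⟩
      · exact tri ⟨y, hy, u, hu.2.1.1, v, hv.2.1.1, adj _ h _ hu.1.1 (by grind), adj _ h _ hv.1.1 (by grind),
          adj _ hu.1.1 _ hv.1.1 huv⟩)
    have e0 : (((H \ S).filter (fun u => miss G S u = 1)) \ S).filter (fun u => miss G S u = 1) =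
        (H \ S).filter (fun u => miss G S u = 1) := by ext u; simp; tauto
    rw [e0] at hsw
    have h1 := overlap (G := G) S
    have h2 := split3 (G := G) S H
    have h5 : (H ∩ S).card ≤ 2 := by
      refine le_trans (card_le_card (t := {x, y}) fun v hv => ?_) card_le_two
      by_contra hc
      simp only [mem_insert, mem_singleton, not_or] at hc
      rw [mem_inter] at hv
      have := nb v hv.1
      have := c4.isClique xS hv.2 (Ne.symm hc.1)
      have := c4.isClique yS hv.2 (Ne.symm hc.2)
      tauto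
    have h6 : ((H \ S).filter (fun u => miss G S u = 0)).card = 0 := by
      rw [card_eq_zero, filter_eq_empty_iff]
      intro v hv h
      have := nb v (mem_sdiff.1 hv).1
      have := miss_zero.1 h x xS
      have := miss_zero.1 h y yS
      tauto
    omega


lemma colouring (P : ℕ → ℕ) (r : ℕ) : ∀ U : Finset (Fin n), U.card = ∑ i ∈ range r, P i →
    ∃ c : Fin n → ℕ, (∀ v ∈ U, c v < r) ∧ ∀ i < r, (U.filter (fun v => c v = i)).card = P i := by
  induction r with
  | zero =>
    intro U h
    obtain rfl : U = ∅ := by simpa using h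
    exact ⟨fun _ => 0, by simp, by simp⟩
  | succ r ih =>
    intro U h
    rw [sum_range_succ] at h
    obtain ⟨B, hB, hc⟩ := exists_subset_card_eq (s := U) (n := P r) (by omega)
    obtain ⟨c, h1, h2⟩ := ih (U \ B) (by have := card_sdiff_add_card_eq_card hB; omega)
    refine ⟨fun v => if v ∈ B then r else c v, fun v hv => ?_, fun i hi => ?_⟩
    · by_cases h : v ∈ B
      · simp [h]
      · have := h1 v (mem_sdiff.2 ⟨hv, h⟩); simp [h]; omega
    · rcases Nat.lt_or_ge i r with h | h
      · rw [← h2 i h]; congr 1; ext v; by_cases hv : v ∈ B <;> simp [hv]; omega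
      · obtain rfl : i = r := by omega
        rw [← hc]; congr 1; ext v
        by_cases hv : v ∈ B
        · simp [hv, hB hv]
        · simp only [mem_filter, hv, if_false, iff_false, not_and]
          intro hU h; have := h1 v (mem_sdiff.2 ⟨hU, hv⟩); omega

/-- the construction: `r + 1` parts, ties exactly at the indices below `t` -/
lemma build (r t b : ℕ) (q : ℕ → ℕ) (hb : 1 ≤ b) (hr : 1 ≤ r) (htr : t ≤ r) (hn : n = ∑ i ∈ range (r + 1), q i + 1)
    (h0 : q 0 = b) (h1 : ∀ i < t, q i = b) (h2 : ∀ i < r, q i ≤ q (i + 1)) (h3 : ∀ i < r, t ≤ i → q i < q (i + 1)) :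
    ∃ G : SimpleGraph (Fin n), (∀ v, b ≤ a G v) ∧ (∃ v, a G v = b) ∧ Hyp (a G) univ (r + 1) q ∧
      (G.cliqueFinset (r + 1 + 1)).card ≤ b ^ t := by
  have mono : ∀ i j, i ≤ j → j ≤ r → q i ≤ q j := by
    intro i j h h'
    induction j, h using Nat.le_induction with
    | base => exact le_rfl
    | succ j h ih => exact (ih (by omega)).trans (h2 j (by omega))
  have hqb : ∀ i ≤ r, b ≤ q i := fun i hi => h0 ▸ mono 0 i (by omega) hi
  obtain ⟨c, c1, c2⟩ := colouring (n := n) (fun i => if i = r then q i + 1 else q i) (r + 1) univ (by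
    rw [card_univ, Fintype.card_fin, hn, sum_range_succ, sum_range_succ, if_pos rfl,
      sum_congr rfl fun i hi => if_neg (mem_range.1 hi).ne, add_assoc])
  have c3 : ∀ i < r, (univ.filter (fun v => c v = i)).card = q i := fun i hi => by
    rw [c2 i (by omega), if_neg hi.ne]
  have c4 : (univ.filter (fun v => c v = r)).card = q r + 1 := by rw [c2 r (by omega), if_pos rfl]
  have hρ : ∀ i, ∃ v, i ≤ r → c v = i := fun i => by
    by_cases hi : i ≤ r
    · have : 0 < (univ.filter (fun v => c v = i)).card := by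
        rw [c2 i (by omega)]; have := hqb i hi; split_ifs <;> omega
      obtain ⟨v, hv⟩ := card_pos.1 this
      exact ⟨v, fun _ => (mem_filter.1 hv).2⟩
    · exact ⟨⟨0, by omega⟩, fun h => absurd h hi⟩
  choose ρ hρ using hρ
  obtain ⟨w, hw, hwu⟩ := exists_mem_ne (s := univ.filter (fun v => c v = r)) (by have := hqb r le_rfl; omega) (ρ r)
  have cw : c w = r := (mem_filter.1 hw).2
  have cu : c (ρ r) = r := hρ r le_rfl
  let R : Fin n → Prop := fun v => c v < t ∨ v = ρ (c v)
  obtain ⟨G, hG⟩ : ∃ G : SimpleGraph (Fin n), ∀ x y, G.Adj x y ↔ ((c x ≠ c y ∧ (x = w → R y) ∧ (y = w → R x)) ∨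
      (x = w ∧ y = ρ r) ∨ (x = ρ r ∧ y = w)) :=
    ⟨⟨fun x y => (c x ≠ c y ∧ (x = w → R y) ∧ (y = w → R x)) ∨
      (x = w ∧ y = ρ r) ∨ (x = ρ r ∧ y = w), ⟨fun x y h => by tauto⟩, ⟨fun x h => by grind⟩⟩, fun _ _ => Iff.rfl⟩
  have up : ∀ v, c v < r → a G v ≤ q (c v) + 1 := fun v hv => by
    rw [← c3 _ hv]
    refine le_trans (card_le_card fun y hy => ?_) (card_insert_le w _)
    simp only [mem_filter, mem_univ, true_and, mem_insert, hG] at hy ⊢
    grind
  have upR : ∀ v, c v < r → R v → a G v ≤ q (c v) := fun v hv hR => by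
    rw [← c3 _ hv]
    refine card_le_card fun y hy => ?_
    simp only [mem_filter, mem_univ, true_and, hG] at hy ⊢
    grind
  have upu : a G (ρ r) ≤ q r := by
    have := card_erase_add_one hw
    rw [c4, Nat.add_right_cancel_iff] at this
    rw [← this]
    refine card_le_card fun y hy => ?_
    simp only [mem_filter, mem_univ, true_and, mem_erase, hG] at hy ⊢
    grind
  have upρ : ∀ i ≤ r, a G (ρ i) ≤ q i := fun i hi => by
    rcases hi.lt_or_eq with h | rfl
    · have := upR (ρ i) (by rw [hρ i hi]; exact h) (Or.inr (by rw [hρ i hi]))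
      rwa [hρ i hi] at this
    · exact upu
  have lo : ∀ v, b ≤ a G v := fun v => by
    have hv : c v ≤ r := Nat.lt_succ_iff.1 (c1 v (mem_univ _))
    refine (hqb _ hv).trans ?_
    rcases hv.lt_or_eq with h | h
    · rw [← c3 _ h]
      refine card_le_card fun y hy => ?_
      simp only [mem_filter, mem_univ, true_and, hG] at hy ⊢
      grind
    · have e := card_erase_add_one (s := univ.filter (fun v => c v = r)) (a := if v = w then ρ r else w)
        (by split_ifs <;> simp [cw, cu])
      rw [c4, Nat.add_right_cancel_iff] at e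
      rw [h, ← e]
      refine card_le_card fun y hy => ?_
      simp only [mem_filter, mem_univ, true_and, mem_erase, hG] at hy ⊢
      grind
  refine ⟨G, lo, ⟨ρ 0, le_antisymm (h0 ▸ upρ 0 (by omega)) (lo _)⟩, ⟨fun i hi => ?_, by simp [hn]⟩, ?_⟩
  · have e : (univ.filter (fun v => c v < i)).card = ∑ j ∈ range i, q j := by
      rw [card_eq_sum_card_fiberwise (f := c) (t := range i) (by intro v hv; simpa using hv)]
      refine sum_congr rfl fun j hj => ?_
      have := mem_range.1 hj
      rw [← c3 j (by omega)]; congr 1; ext v; simp; omega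
    have : ρ i ∉ univ.filter (fun v => c v < i) := by simp [hρ i (by omega)]
    rw [← e, Nat.lt_iff_add_one_le, ← card_insert_of_notMem this]
    refine card_le_card fun v hv => mem_filter.2 ⟨mem_univ _, ?_⟩
    rcases mem_insert.1 hv with rfl | hv
    · exact upρ i (by omega)
    · have hv : c v < i := (mem_filter.1 hv).2
      have m := mono (c v + 1) i hv (by omega)
      by_cases h : c v < t
      · exact (upR v (by omega) (Or.inl h)).trans ((h2 _ (by omega)).trans m)
      · have := up v (by omega)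
        have := h3 (c v) (by omega) (by omega)
        omega
  · let F : Fin r → Finset (Fin n) := fun i => univ.filter (fun v => c v = i ∧ R v)
    have hF : ∏ i, (F i).card ≤ b ^ t := by
      have : ∀ i : Fin r, (F i).card ≤ if (i : ℕ) < t then b else 1 := fun i => by
        split_ifs with h
        · rw [← h1 i h, ← c3 i i.2]
          exact card_le_card fun v hv => by simp only [F, mem_filter, mem_univ, true_and] at hv ⊢; exact hv.1
        · refine card_le_one.2 fun x hx y hy => ?_
          simp only [F, R, mem_filter, mem_univ, true_and] at hx hy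
          rw [hx.2.resolve_left (by omega), hy.2.resolve_left (by omega), hx.1, hy.1]
      refine (prod_le_prod' fun i _ => this i).trans ?_
      rw [prod_ite, prod_const, prod_const_one, mul_one]
      refine Nat.pow_le_pow_right hb ?_
      rw [← card_range t]
      exact card_le_card_of_injOn (fun i => i.val) (by intro i hi; simpa using hi) Fin.val_injective.injOn
    refine le_trans ?_ hF
    rw [← Fintype.card_piFinset]
    refine le_trans (card_le_card (t := (Fintype.piFinset F).image
      (fun f => insert w (insert (ρ r) (univ.image f)))) fun I hI => ?_) card_image_le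
    replace hI : G.IsNClique (r + 1 + 1) I := SimpleGraph.mem_cliqueFinset_iff.1 hI
    have adj : ∀ p ∈ I, ∀ p' ∈ I, p ≠ p' → G.Adj p p' := fun p hp p' hp' h => hI.isClique hp hp' h
    obtain ⟨x, hx, y, hy, hxy, hc⟩ := exists_ne_map_eq_of_card_lt_of_maps_to (s := I) (t := range (r + 1)) (f := c)
      (by rw [hI.card_eq, card_range]; omega) (fun v _ => by simpa using c1 v (mem_univ _))
    have hI2 : w ∈ I ∧ ρ r ∈ I := by have := adj x hx y hy hxy; simp only [hG] at this; grind
    set J := (I.erase w).erase (ρ r) with hJ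
    have hJ1 : ∀ v ∈ J, c v < r ∧ R v := fun v hv => by
      simp only [hJ, mem_erase] at hv
      have := adj v hv.2.2 w hI2.1 hv.2.1
      have := c1 v (mem_univ _)
      simp only [hG] at *
      grind
    have hJ2 : Set.InjOn c J := fun x hx y hy h => by
      by_contra hne
      simp only [hJ, coe_erase, Set.mem_sdiff, mem_coe, Set.mem_singleton_iff] at hx hy
      have := adj x hx.1.1 y hy.1.1 hne
      simp only [hG] at this
      grind
    have hJ3 : J.card = r := by
      rw [hJ, card_erase_of_mem (mem_erase.2 ⟨hwu.symm, hI2.2⟩), card_erase_of_mem hI2.1, hI.card_eq]; rfl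
    have hJ4 : J.image c = range r := eq_of_subset_of_card_le
      (fun i hi => by obtain ⟨v, hv, rfl⟩ := mem_image.1 hi; exact mem_range.2 (hJ1 v hv).1)
      (by rw [card_image_of_injOn hJ2, hJ3, card_range])
    have hf : ∀ i : Fin r, ∃ v ∈ J, c v = i := fun i => mem_image.1 (hJ4 ▸ mem_range.2 i.2)
    choose f hf1 hf2 using hf
    refine mem_image.2 ⟨f, Fintype.mem_piFinset.2 fun i => mem_filter.2 ⟨mem_univ _, hf2 i, (hJ1 _ (hf1 i)).2⟩, ?_⟩
    have : univ.image f = J := by
      refine eq_of_subset_of_card_le (fun v hv => by obtain ⟨i, -, rfl⟩ := mem_image.1 hv; exact hf1 i) ?_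
      rw [card_image_of_injective _ (fun i j h => Fin.ext (by rw [← hf2 i, ← hf2 j, h])), hJ3]; simp
    rw [this, hJ, insert_erase (mem_erase.2 ⟨hwu.symm, hI2.2⟩), insert_erase hI2.1]

lemma sum_tail (t j : ℕ) : ∑ i ∈ range (t + 1 + j), (i - t) = (j + 1).choose 2 := by
  induction j with
  | zero => exact sum_eq_zero fun i hi => by have := mem_range.1 hi; omega
  | succ j ih => rw [← add_assoc, sum_range_succ, ih, Nat.choose_succ_succ' (j + 1) 1, Nat.choose_one_right, show 1 + 1 = 2 from rfl]; omega

lemma upper {k r j : ℕ} (hr : 2 ≤ r) (hk : k < n) (hj : j < r)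
    (h : r * (n - k) + (j + 1).choose 2 < n) : ∃ c ∈ counts n k r, c ≤ (n - k) ^ (r - 1 - j) := by
  obtain ⟨r, rfl⟩ : ∃ r', r = r' + 1 := ⟨r - 1, by omega⟩
  set b := n - k with hb
  set t := r - j with ht
  have e1 := sum_tail t j
  rw [show t + 1 + j = r + 1 by omega, sum_range_succ] at e1
  have e2 : ∑ i ∈ range r, (b + (i - t)) = r * b + ∑ i ∈ range r, (i - t) := by simp [sum_add_distrib]
  have e3 : (r + 1) * b = r * b + b := by ring
  obtain ⟨G, g1, ⟨v, g2⟩, g3, g4⟩ := build (n := n) r t b
    (fun i => if i = r then n - 1 - ∑ i ∈ range r, (b + (i - t)) else b + (i - t)) (by omega) (by omega) (by omega)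
    (by rw [sum_range_succ, if_pos rfl, sum_congr rfl fun i hi => if_neg (mem_range.1 hi).ne]; omega)
    (by rw [if_neg (by omega)]; omega) (fun i hi => by rw [if_neg (by omega)]; omega)
    (fun i hi => by rw [if_neg (by omega)]; split_ifs <;> omega)
    (fun i hi hi' => by rw [if_neg (by omega)]; split_ifs <;> omega)
  refine ⟨_, ⟨G, le_antisymm ?_ ?_, hyp_nonmaj g3, rfl⟩, by simpa using g4⟩
  · exact G.maxDegree_le_of_forall_degree_le k fun u => by
      have := a_add G u; have := g1 u; unfold deg at *; omega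
  · have := G.degree_le_maxDegree v
    have := a_add G v
    unfold deg at *; omega

lemma lower {k r c : ℕ} (hr : 2 ≤ r) (hc : c ∈ counts n k r) : k < n ∧ r * (n - k) < n ∧ 1 ≤ c ∧
    (n ≤ r * (n - k) + r.choose 2 → n - k ≤ c) := by
  obtain ⟨G, hk, hG, rfl⟩ := hc
  obtain ⟨q, hH, hm⟩ := nonmaj_hyp hG
  have hn : ∑ j ∈ range r, q j < n := by simpa using hH.2
  have hq : ∀ i < r, n - k ≤ q i := fun i hi => by
    obtain ⟨v, hv⟩ := card_pos.1 (lt_of_le_of_lt (Nat.zero_le _) (hH.1 i hi))
    have := (mem_filter.1 hv).2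
    have := G.degree_le_maxDegree v
    have := a_add G v
    unfold deg at *; omega
  refine ⟨?_, ?_, lower_one hH, fun h => ?_⟩
  · have : Nonempty (Fin n) := ⟨⟨0, by omega⟩⟩
    simpa [hk] using G.maxDegree_lt_card_verts
  · refine lt_of_le_of_lt ?_ hn
    have := card_nsmul_le_sum (range r) q (n - k) fun i hi => hq i (mem_range.1 hi)
    simpa using this
  · have : ((range (r - 1)).filter (fun i => q (i + 1) = q i)).Nonempty := by
      by_contra hne
      rw [not_nonempty_iff_eq_empty, filter_eq_empty_iff] at hne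
      have h1 : ∀ i < r, n - k + i ≤ q i := by
        intro i hi
        induction i with
        | zero => exact hq 0 hi
        | succ i ih =>
          have := ih (by omega)
          have := hm i hi
          have := hne (mem_range.2 (show i < r - 1 by omega))
          omega
      have h2 := sum_le_sum (s := range r) fun i hi => h1 i (mem_range.1 hi)
      rw [sum_add_distrib, sum_const, card_range, smul_eq_mul, sum_range_id, ← Nat.choose_two_right] at h2
      omega
    obtain ⟨t, ht, hmax⟩ := exists_max_image _ id this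
    simp only [mem_filter, mem_range] at ht
    refine (hq t (by omega)).trans (lower_tie hH (by omega) ht.2 fun i hi hi' => ?_)
    refine lt_of_le_of_ne (hm i hi') fun he => ?_
    have := hmax i (mem_filter.2 ⟨mem_range.2 (by omega), he.symm⟩)
    simp only [id] at this
    omega


lemma step {j B c : ℕ} (W : Finset (Fin n)) (B' : ℕ) (hW : B + c ≤ W.card) (hB : ∀ w ∈ W, B + a G w ≤ B') :
    c * ((G.cliqueFinset j).filter (fun S => ∑ s ∈ S, a G s ≤ B)).card ≤
      (j + 1) * ((G.cliqueFinset (j + 1)).filter (fun S => ∑ s ∈ S, a G s ≤ B')).card := by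
  rw [mul_comm c, mul_comm (j + 1)]
  refine card_mul_le_card_mul (fun S S' => S ⊆ S') (fun S hS => ?_) (fun S' hS' => ?_)
  · simp only [mem_filter, SimpleGraph.mem_cliqueFinset_iff] at hS
    have h1 := card_filter_add_card_filter_not (s := W) (fun u => miss G S u = 0)
    have h2 : (W.filter (fun u => ¬ miss G S u = 0)).card ≤ (univ.filter (fun u => miss G S u ≠ 0)).card :=
      card_le_card (filter_subset_filter _ (subset_univ _))
    have h3 := blocked (G := G) S
    refine le_trans (show c ≤ (W.filter (fun u => miss G S u = 0)).card by omega) ?_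
    refine card_le_card_of_injOn (fun u => insert u S) (fun u hu => ?_) (fun u hu v hv h => ?_)
    · simp only [coe_filter, Set.mem_ofPred_eq, miss_zero] at hu
      obtain ⟨e1, e2⟩ := clique_ins hS.1 hu.2
      have := hB u hu.1
      simp only [coe_bipartiteAbove, Set.mem_ofPred_eq, mem_filter, SimpleGraph.mem_cliqueFinset_iff]
      exact ⟨⟨e1, by rw [sum_insert e2]; omega⟩, subset_insert _ _⟩
    · simp only [coe_filter, Set.mem_ofPred_eq, miss_zero] at hu
      have := (clique_ins hS.1 hu.2).2
      have h2 : u ∈ insert v S := by simp only at h; rw [← h]; exact mem_insert_self _ _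
      grind
  · simp only [mem_filter, SimpleGraph.mem_cliqueFinset_iff] at hS'
    refine le_trans (card_le_card (t := powersetCard j S') fun S hS => ?_) ?_
    · simp only [mem_bipartiteBelow, mem_filter, SimpleGraph.mem_cliqueFinset_iff] at hS
      exact mem_powersetCard.2 ⟨hS.2, hS.1.1.card_eq⟩
    · rw [card_powersetCard, hS'.1.card_eq, Nat.choose_succ_self_right]

lemma order {r b : ℕ} {q : ℕ → ℕ} (hH : Hyp (a G) univ (r + 1) q) (hm : ∀ i, i + 1 < r + 1 → q i ≤ q (i + 1))
    (hq : b ≤ q 0) : ∃ u, (r + 1) * b + (u + 1).choose 2 < n ∧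
      (b + 1) ^ (r - u) ≤ (r + 1 + 1).factorial * (G.cliqueFinset (r + 1 + 1)).card := by
  have key : ∀ m ≤ r, ∃ u ≤ m, b + u ≤ q m ∧ (m + 1) * b + (u + 1).choose 2 ≤ ∑ j ∈ range (m + 1), q j ∧
      (b + 1) ^ (m - u) ≤ m.factorial *
        ((G.cliqueFinset m).filter (fun S => ∑ s ∈ S, a G s ≤ ∑ j ∈ range m, q j)).card := by
    intro m hmr
    induction m with
    | zero =>
      refine ⟨0, le_rfl, hq, by simpa using hq, ?_⟩
      rw [pow_zero, Nat.factorial_zero, one_mul]
      exact card_pos.2 ⟨∅, by simp⟩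
    | succ m ih =>
      obtain ⟨u, h0, h1, h2, h3⟩ := ih (by omega)
      have s1 := sum_range_succ q m
      have s2 := sum_range_succ q (m + 1)
      have e : (m + 1 + 1) * b = (m + 1) * b + b := by ring
      have hB : ∀ w ∈ univ.filter (fun v => a G v ≤ q m), ∑ j ∈ range m, q j + a G w ≤ ∑ j ∈ range (m + 1), q j :=
        fun w hw => by have := (mem_filter.1 hw).2; omega
      rcases (hm m (by omega)).eq_or_lt with h | h
      · have h4 := hH.1 (m + 1) (by omega)
        rw [← h] at h4
        have h5 := step (G := G) (j := m) (c := b + 1) _ _ (by omega) hB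
        refine ⟨u, by omega, by omega, by omega, ?_⟩
        rw [show m + 1 - u = m - u + 1 by omega, pow_succ, Nat.factorial_succ]
        calc _ ≤ _ := Nat.mul_le_mul_right _ h3
          _ = _ := by rw [mul_assoc, mul_comm _ (b + 1)]
          _ ≤ _ := Nat.mul_le_mul_left _ h5
          _ = _ := by ring
      · have h5 := step (G := G) (j := m) (c := 1) _ _ (hH.1 m (by omega)) hB
        refine ⟨u + 1, by omega, by omega, ?_, ?_⟩
        · rw [Nat.choose_succ_succ' (u + 1) 1, Nat.choose_one_right, show 1 + 1 = 2 from rfl]; omega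
        · rw [Nat.add_sub_add_right, Nat.factorial_succ]
          rw [one_mul] at h5
          calc _ ≤ _ := h3
            _ ≤ _ := Nat.mul_le_mul_left _ h5
            _ = _ := by ring
  obtain ⟨u, -, -, h2, h3⟩ := key r le_rfl
  have hn : ∑ j ∈ range (r + 1), q j < n := by simpa using hH.2
  have h5 := step (G := G) (j := r) (c := 1) _ (∑ j ∈ range (r + 1), q j) (hH.1 r (by omega))
    (fun w hw => by have := (mem_filter.1 hw).2; rw [sum_range_succ]; omega)
  have h6 := step (G := G) (j := r + 1) (c := 1) (B := ∑ j ∈ range (r + 1), q j) univ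
    (∑ j ∈ range (r + 1), q j + n) (by simpa using hn) (fun w _ => by have := a_add G w; omega)
  rw [one_mul] at h5 h6
  refine ⟨u, by omega, ?_⟩
  calc _ ≤ _ := h3
    _ ≤ _ := Nat.mul_le_mul_left _ h5
    _ ≤ _ := Nat.mul_le_mul_left _ (Nat.mul_le_mul_left _ h6)
    _ ≤ _ := Nat.mul_le_mul_left _ (Nat.mul_le_mul_left _ (Nat.mul_le_mul_left _ (card_filter_le _ _)))
    _ = _ := by rw [Nat.factorial_succ, Nat.factorial_succ]; ring

lemma lower_order {k r c j : ℕ} (hr : 2 ≤ r) (hc : c ∈ counts n k r) (h : n ≤ r * (n - k) + (j + 2).choose 2) :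
    (n - k + 1) ^ (r - 1 - j) ≤ (r + 1).factorial * c := by
  obtain ⟨r, rfl⟩ : ∃ r', r = r' + 1 := ⟨r - 1, by omega⟩
  obtain ⟨G, hk, hG, rfl⟩ := hc
  obtain ⟨q, hH, hm⟩ := nonmaj_hyp hG
  obtain ⟨u, h1, h2⟩ := order (b := n - k) hH hm (by
    obtain ⟨v, hv⟩ := card_pos.1 (lt_of_le_of_lt (Nat.zero_le _) (hH.1 0 (by omega)))
    have := (mem_filter.1 hv).2
    have := G.degree_le_maxDegree v
    have := a_add G v
    unfold deg at *; omega)
  have hu : u ≤ j := by
    by_contra hlt
    have := Nat.choose_le_choose 2 (show j + 2 ≤ u + 1 by omega)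
    omega
  exact (Nat.pow_le_pow_right (by omega) (by omega)).trans h2

lemma all_parts (n k r : ℕ) (hr : 2 ≤ r) :
    ((counts n k r).Nonempty ↔ k < n ∧ r * (n - k) < n) ∧
    (k < n → r * (n - k) + r.choose 2 < n → IsLeast (counts n k r) 1) ∧
    (k < n → r * (n - k) + (r - 1).choose 2 < n → n ≤ r * (n - k) + r.choose 2 →
      IsLeast (counts n k r) (n - k)) ∧
    (n ≤ r * (n - k) + r.choose 2 → ∀ c ∈ counts n k r, n - k ≤ c) ∧
    (∀ j < r, k < n → r * (n - k) + (j + 1).choose 2 < n →
      ∃ c ∈ counts n k r, c ≤ (n - k) ^ (r - 1 - j)) ∧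
    (∀ j, n ≤ r * (n - k) + (j + 2).choose 2 →
      ∀ c ∈ counts n k r, (n - k + 1) ^ (r - 1 - j) ≤ (r + 1).factorial * c) := by
  refine ⟨⟨fun ⟨c, hc⟩ => ⟨(lower hr hc).1, (lower hr hc).2.1⟩, fun h => ?_⟩, fun hk h => ?_, fun hk h h' => ?_,
    fun h c hc => (lower hr hc).2.2.2 h, fun j hj hk h => upper hr hk hj h, fun j h c hc => lower_order hr hc h⟩
  · obtain ⟨c, hc, -⟩ := upper (j := 0) hr h.1 (by omega) (by simpa using h.2)
    exact ⟨c, hc⟩
  · obtain ⟨c, hc, h1⟩ := upper (j := r - 1) hr hk (by omega) (by rwa [show r - 1 + 1 = r by omega])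
    rw [Nat.sub_self, pow_zero] at h1
    exact ⟨le_antisymm h1 (lower hr hc).2.2.1 ▸ hc, fun c hc => (lower hr hc).2.2.1⟩
  · obtain ⟨c, hc, h1⟩ := upper (j := r - 2) hr hk (by omega) (by rwa [show r - 2 + 1 = r - 1 by omega])
    rw [show r - 1 - (r - 2) = 1 by omega, pow_one] at h1
    exact ⟨le_antisymm h1 ((lower hr hc).2.2.2 h') ▸ hc, fun c hc => (lower hr hc).2.2.2 h'⟩

theorem result (n k r : ℕ) (hr : 2 ≤ r) (hk : k < n)
    (h : r * (n - k) + (r - 1).choose 2 < n) :
    IsLeast (counts n k r) (if r * (n - k) + r.choose 2 < n then 1 else n - k) := by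
  split_ifs with h1
  · exact (all_parts n k r hr).2.1 hk h1
  · exact (all_parts n k r hr).2.2.1 hk h (not_lt.1 h1)

end Pool.Agent.Results.MP_76b19e_co.Ties
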