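import Mathlib
import Pool.Agent.Results.MP_76b19e_co.Ties

namespace Pool.Agent.Results.MP_76b19e_co.Defined

open Pool.Agent.Results.MP_76b19e_co.Ties

theorem result (n k r : ℕ) (hr : 2 ≤ r) :
    (counts n k r).Nonempty ↔ k < n ∧ r * (n - k) < n :=
  (all_parts n k r hr).1

end Pool.Agent.Results.MP_76b19e_co.Defined
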