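import Mathlib
import Pool.Agent.Results.MP_76b19e_co.Ties

namespace Pool.Agent.Results.MP_76b19e_co.Order

open Pool.Agent.Results.MP_76b19e_co.Ties

theorem result (n k r j : ℕ) (hr : 2 ≤ r) (hj : j < r) (hk : k < n)
    (h1 : r * (n - k) + (j + 1).choose 2 < n) (h2 : n ≤ r * (n - k) + (j + 2).choose 2) :
    (∃ c ∈ counts n k r, c ≤ (n - k) ^ (r - 1 - j)) ∧
    ∀ c ∈ counts n k r, (n - k + 1) ^ (r - 1 - j) ≤ (r + 1).factorial * c :=
  ⟨(all_parts n k r hr).2.2.2.2.1 j hj hk h1, (all_parts n k r hr).2.2.2.2.2 j h2⟩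

end Pool.Agent.Results.MP_76b19e_co.Order
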